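import Mathlib
import Pool.Agent.Lib.MP_979eef_lc.Main

/-!
# MP_979eef_lc: a weak KRW theorem for formulas with few OR gates near the root

For all large `n` there are non-constant `f, g : {0,1}^n → {0,1}` such that

* if `f ◇ g` is an AND (or an OR) of `M` De Morgan formulas of size at most `s`, then
  `log s ≥ n - (log M) / n - O(log n)`;
* every De Morgan formula of depth `d` for `f ◇ g` in which every path has at most `m` OR gates
  (or: at most `m` AND gates) among its first `k` gates satisfies
  `d ≥ n + k - m - k 2^m / n - O(log n)`.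

`Fml` (De Morgan formulas), `Fml.eval`, `Fml.depth`, `Fml.size` (number of leaves),
`Fml.orTop k` and `Fml.andTop k` (largest number of OR, AND gates among the first `k` gates of a
path from the root), `NonConst` and `comp` (block composition, a function of the `n * n`
variables `x (i, j)`) are defined in `Pool.Agent.Lib.MP_979eef_lc.Defs`.
-/

namespace Pool.Agent.Results.MP_979eef_lc.FewOrGates

open MP979 in
theorem result :
    ∃ C n₀ : ℕ, ∀ n ≥ n₀, ∃ f g : (Fin n → Bool) → Bool, NonConst f ∧ NonConst g ∧
      (∀ (L : List (Fml (Fin n × Fin n))) (s : ℕ), (∀ ψ ∈ L, ψ.size ≤ s) →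
        ((∀ x, comp f g x = true ↔ ∀ ψ ∈ L, ψ.eval x = true) ∨
          (∀ x, comp f g x = true ↔ ∃ ψ ∈ L, ψ.eval x = true)) →
        n ≤ Nat.log 2 s + Nat.log 2 L.length / n + C * Nat.log 2 n) ∧
      (∀ φ : Fml (Fin n × Fin n), (∀ x, φ.eval x = comp f g x) →
        ∀ k m : ℕ, (φ.orTop k ≤ m ∨ φ.andTop k ≤ m) →
          n ≤ (φ.depth - k) + m + k * 2 ^ m / n + C * Nat.log 2 n) := by
  refine ⟨28, 32, fun n hn => ?_⟩
  obtain ⟨f, g, hf, hg, H⟩ := main_bound n hn
  have hA : ∀ (L : List (Fml (Fin n × Fin n))) (s : ℕ), (∀ ψ ∈ L, ψ.size ≤ s) →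
        ((∀ x, comp f g x = true ↔ ∀ ψ ∈ L, ψ.eval x = true) ∨
          (∀ x, comp f g x = true ↔ ∃ ψ ∈ L, ψ.eval x = true)) →
        n ≤ Nat.log 2 s + Nat.log 2 L.length / n + 28 * Nat.log 2 n := by
    intro L s hs hL
    rcases hL with hL | hL
    · refine bound_list hf hg H false L s hs ?_
      intro x
      have h1 := hL x
      constructor
      · intro hx
        by_contra hcon
        push Not at hcon
        have h2 : comp f g x = true := h1.2 (fun ψ hψ => by
          have := hcon ψ hψ
          simpa using this)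
        rw [hx] at h2
        exact absurd h2 (by decide)
      · rintro ⟨ψ, hψ, hψx⟩
        by_contra hcon
        have h2 : comp f g x = true := by simpa using hcon
        have h3 := h1.1 h2 ψ hψ
        rw [hψx] at h3
        exact absurd h3 (by decide)
    · exact bound_list hf hg H true L s hs hL
  exact ⟨f, g, hf, hg, hA, fun φ hφ k m hkm => bound_top hA φ hφ k m hkm⟩

end Pool.Agent.Results.MP_979eef_lc.FewOrGates
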