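import Pool.Agent.Lib.MP_979eef_lc.H.MainR

/-!
Composition theorem for De Morgan formulas without hazards. For every `ε > 0` there is one monotone
inner function `g` such that for EVERY outer function `f` and every formula `F` of `f ◇ g` without
hazards in the set `U` of variables: if `B` is the set of blocks with at least `m` variables in `U`
(`m` depends on `ε` only) and `c` fixes the other inputs of `f` such that the restriction is not
constant, then the restriction has a hazard-free formula `φ` (monotone, if the restriction is) with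
`size φ * 2 ^ ((1 - ε) n) ≤ size F`. Variables which occur only un-negated have no hazards.
-/

set_option autoImplicit false

namespace Pool.Agent.Results.MP_979eef_lc.HazardFreeComposition

open MP979

/-- Composition theorem for formulas without hazards in some variables of some blocks. -/
theorem result (ε : ℝ) (hε : 0 < ε) : ∃ m n₀ : ℕ, ∀ n ≥ n₀,
    ∃ g : (Fin n → Bool) → Bool, Monotone g ∧ NonConst g ∧
      (∀ (f : (Fin n → Bool) → Bool) (F : Fml (Fin n × Fin n)) (U : Set (Fin n × Fin n)),
        (∀ x, F.eval x = comp f g x) → F.HazardFree U →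
          ∀ c : Fin n → Bool, NonConst (restr f (blocksOf m U) c) →
            ∃ φ : Fml (Fin n), (∀ a, φ.eval a = restr f (blocksOf m U) c a) ∧
              φ.HazardFree Set.univ ∧
              (Monotone (restr f (blocksOf m U) c) → φ.PosOn Set.univ) ∧
              (φ.size : ℝ) * 2 ^ ((1 - ε) * n) ≤ F.size) ∧
      (∃ f : (Fin n → Bool) → Bool, Monotone f ∧ NonConst f ∧
        ∀ (F : Fml (Fin n × Fin n)) (U : Set (Fin n × Fin n)),
          (∀ x, F.eval x = comp f g x) → F.HazardFree U →
            (2 : ℝ) ^ ((n : ℝ) + (blocksOf m U).card - ε * n) ≤ F.size ∧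
              (n : ℝ) + (blocksOf m U).card - ε * n ≤ F.depth) ∧
      ∀ (F : Fml (Fin n × Fin n)) (U : Set (Fin n × Fin n)), F.PosOn U → F.HazardFree U := by
  obtain ⟨m, n1, h1⟩ := hf_krw (ε / 2) (by linarith)
  obtain ⟨n2, h2⟩ := hf_hard (ε / 2) (by linarith)
  refine ⟨m, max n1 n2, fun n hn => ?_⟩
  obtain ⟨g, hg1, hg2, hg3, hg4⟩ := h1 n (le_trans (le_max_left _ _) hn)
  have hnn : (0 : ℝ) ≤ n := Nat.cast_nonneg n
  refine ⟨g, hg1, hg2, ?_, ?_, fun F U h => Fml.hazardFree_of_posOn h⟩
  · intro f F U hF hU c hnc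
    obtain ⟨φ, k1, k2, k3, k4⟩ := hg4 f F U hF hU c hnc
    refine ⟨φ, k1, k2, k3, le_trans ?_ k4⟩
    refine mul_le_mul_of_nonneg_left ?_ (Nat.cast_nonneg _)
    refine Real.rpow_le_rpow_of_exponent_le (by norm_num) ?_
    refine mul_le_mul_of_nonneg_right ?_ hnn
    linarith
  · obtain ⟨f, hf1, hf2, hf3⟩ := h2 n (le_trans (le_max_right _ _) hn)
    refine ⟨f, hf1, hf2, fun F U hF hU => ?_⟩
    have hp : (0 : ℝ) < (2 : ℝ) ^ ((1 - ε / 2) * (n : ℝ)) := Real.rpow_pos_of_pos (by norm_num) _
    have h3 := hf3 (blocksOf m U) ((F.size : ℝ) / 2 ^ ((1 - ε / 2) * (n : ℝ))) (by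
      rw [le_div_iff₀ hp, one_mul]
      exact hg3 f hf2 F hF) (by
      intro c hc
      obtain ⟨φ, k1, _, k3, k4⟩ := hg4 f F U hF hU c hc
      rw [le_div_iff₀ hp]
      refine le_trans (mul_le_mul_of_nonneg_right ?_ hp.le) k4
      have k5 : monoSize (restr f (blocksOf m U) c) ≤ φ.size :=
        Nat.sInf_le ⟨φ, k3 (restr_mono hf1 _ c), k1, rfl⟩
      exact_mod_cast k5)
    have hsize : (2 : ℝ) ^ ((n : ℝ) + (blocksOf m U).card - ε * n) ≤ F.size := by
      rw [le_div_iff₀ hp, ← Real.rpow_add (by norm_num)] at h3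
      refine le_trans (le_of_eq ?_) h3
      congr 1
      ring
    refine ⟨hsize, ?_⟩
    have h4 : (2 : ℝ) ^ ((n : ℝ) + (blocksOf m U).card - ε * n) ≤ (2 : ℝ) ^ ((F.depth : ℕ) : ℝ) := by
      rw [Real.rpow_natCast]
      refine le_trans hsize ?_
      exact_mod_cast Fml.size_le F
    exact (Real.rpow_le_rpow_left_iff (by norm_num)).1 h4

end Pool.Agent.Results.MP_979eef_lc.HazardFreeComposition
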