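import Pool.Agent.Lib.MP_979eef_lc.R.Fin
import Pool.Agent.Lib.MP_979eef_lc.R.Upo

/-!
Weak KRW for one-sided protocols. For every `δ, ε > 0` there are `ρ > 0` and `n₀` such that for
`n ≥ n₀` and every family `𝓗` of at most `2 ^ 2 ^ ((1 - δ) n)` functions on `n` blocks there is ONE
inner function `g` such that for EVERY outer function `f` and every Karchmer-Wigderson protocol `P`
of `f ◇ g`:

(1) if the first `k` messages on every path are one-sided (`OneSided`, for `P` or for `P` with the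
    players exchanged) and `2 ^ a * (k + Q) + ε n ≤ log L(f)`, then `depth P ≥ k + (1 - ε) n`;
(2) if all messages are one-sided with `a = 0`, then `log L(f) + (1 - ε) n ≤ Q + depth P`, and
    `L(f) * 2 ^ ((1 - ε) n) ≤ 2 ^ Q * leaves P` if `depth P ≤ n ^ 2`.

One-sided: Bob's messages are ARBITRARY; each of Alice's is in `𝓗`, or is determined by all the
values `g (x_i)` and the values of the functions in `𝓗` sent before or opened (at most `Q` on a path),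
or is arbitrary (at most `a` times on a path), or arbitrary if all leaves below name variables of at
most `v` blocks.

(3) There are `f` with `L(f) ≥ 2 ^ ((1 - ε) n)`. (4) `𝓗` may be the set of all functions with
formulas of size `≤ 2 ^ ((1 - 2 δ) n)`. (5) The usual protocol is one-sided for both players with
`a = Q = 0`, `𝓗 = ∅`. (6) Protocols and formulas are equivalent (Karchmer-Wigderson).
-/

set_option autoImplicit false

namespace Pool.Agent.Results.MP_979eef_lc.OneSidedProtocols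

open MP979

theorem result :
    (∀ δ ε : ℝ, 0 < δ → 0 < ε → ∃ (ρ : ℝ) (n₀ : ℕ), 0 < ρ ∧ ∀ n ≥ n₀,
      ∀ 𝓗 : Finset ((Fin n × Fin n → Bool) → Bool),
      (𝓗.card : ℝ) ≤ 2 ^ ((2 : ℝ) ^ ((1 - δ) * n)) →
      ∃ g : (Fin n → Bool) → Bool, NonConst g ∧
        (∀ (f : (Fin n → Bool) → Bool) (P : Prot (Fin n × Fin n)) (k a Q v : ℕ),
          P.Solves (comp f g) → ((2 ^ a * v : ℕ) : ℝ) ≤ ρ * n →
          (OneSided g 𝓗 v k a Q [] P ∨ OneSided g 𝓗 v k a Q [] P.swap) →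
          (∀ φ : Fml (Fin n), (∀ x, φ.eval x = f x) →
            (2 : ℝ) ^ (((2 ^ a * (k + Q) : ℕ) : ℝ) + ε * n) ≤ φ.size) →
          k + (1 - ε) * n ≤ P.depth) ∧
        ∀ (f : (Fin n → Bool) → Bool) (P : Prot (Fin n × Fin n)) (Q v : ℕ) (c : ℝ),
          NonConst f → P.Solves (comp f g) → (v : ℝ) ≤ ρ * n →
          (OneSided g 𝓗 v P.depth 0 Q [] P ∨ OneSided g 𝓗 v P.depth 0 Q [] P.swap) →
          (∀ φ : Fml (Fin n), (∀ x, φ.eval x = f x) → c ≤ φ.size) →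
          c * 2 ^ ((1 - ε) * n) ≤ 2 ^ (Q + P.depth) ∧
          (P.depth ≤ n ^ 2 → c * 2 ^ ((1 - ε) * n) ≤ 2 ^ Q * P.leaves)) ∧
    (∀ ε : ℝ, 0 < ε → ∃ n₀ : ℕ, ∀ n ≥ n₀, ∃ f : (Fin n → Bool) → Bool, NonConst f ∧
      ∀ φ : Fml (Fin n), (∀ a, φ.eval a = f a) → (2 : ℝ) ^ ((1 - ε) * n) ≤ φ.size) ∧
    (∀ δ : ℝ, 0 < δ → ∃ n₀ : ℕ, ∀ n ≥ n₀, ∃ 𝓗 : Finset ((Fin n × Fin n → Bool) → Bool),
      (𝓗.card : ℝ) ≤ 2 ^ ((2 : ℝ) ^ ((1 - δ) * n)) ∧
      ∀ φ : Fml (Fin n × Fin n), (φ.size : ℝ) ≤ 2 ^ ((1 - 2 * δ) * n) → φ.eval ∈ 𝓗) ∧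
    (∀ (n : ℕ) (f g : (Fin n → Bool) → Bool) (φ ψ : Fml (Fin n)), (∀ a, φ.eval a = f a) →
      (∀ x, ψ.eval x = g x) → ∃ P : Prot (Fin n × Fin n), P.Solves (comp f g) ∧
        P.depth ≤ φ.depth + ψ.depth ∧
        ∀ k, OneSided g ∅ 1 k 0 0 [] P ∧ OneSided g ∅ 1 k 0 0 [] P.swap) ∧
    ∀ (ι : Type) (h : (ι → Bool) → Bool), (∃ x, h x = true) → (∃ x, h x = false) →
      (∀ d, (∃ P : Prot ι, P.Solves h ∧ P.depth ≤ d) ↔
        ∃ φ : Fml ι, (∀ x, φ.eval x = h x) ∧ φ.depth ≤ d) ∧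
      ∀ s, (∃ P : Prot ι, P.Solves h ∧ P.leaves ≤ s) ↔
        ∃ φ : Fml ι, (∀ x, φ.eval x = h x) ∧ φ.size ≤ s := by
  refine ⟨fun δ ε hδ hε => os_final δ ε hδ hε, fun ε hε => exists_hard_fun ε hε,
    fun δ hδ => fam_small δ hδ, ?_, fun ι h h1 h0 =>
    ⟨fun d => kw_iff h h1 h0 d, fun s => kw_size h h1 h0 s⟩⟩
  intro n f g φ ψ hφ hψ
  obtain ⟨P, h1, h2, h3⟩ := upo_main g ψ hψ φ {x | comp f g x = true} {y | comp f g y = false}
    (fun x hx => by rw [hφ]; exact hx) (fun y hy => by rw [hφ]; exact hy)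
  exact ⟨P, h2, h1, h3⟩

end Pool.Agent.Results.MP_979eef_lc.OneSidedProtocols
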