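import Pool.Agent.Lib.MP_979eef_lc.Q.Fin3

/-!
Weak KRW for protocols with simple messages. For every `δ, ε > 0` there are `ρ > 0` and `n₀` such
that for `n ≥ n₀` and every family `𝓗` of at most `2 ^ 2 ^ ((1 - δ) n)` functions on `n` blocks there
is ONE inner function `g` such that for EVERY outer function `f` and every Karchmer-Wigderson protocol
`P` of `f ◇ g`:

(1) if the first `k` messages on every path are simple and `k + T + ε n ≤ log L(f)`, then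
    `depth P ≥ k + (1 - ε) n`;
(2) if all messages are simple, then `2 ^ T * leaves P ≥ L(f) * 2 ^ ((1 - ε) n)`.

(3) There are `f` with `L(f) ≥ 2 ^ ((1 - ε) n)`. (4) `𝓗` may be the set of all functions with formulas
of size `≤ 2 ^ ((1 - 2 δ) n)`. (5) The usual protocol is simple with `T = Q = 0`, `𝓗 = ∅`.
(6) Protocols and formulas are equivalent (Karchmer-Wigderson).

A message is simple (`MsgH`) if it is a function of all the values `g (x_i)`, of the opened blocks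
and of the values of the opened functions; on every path at most `T` blocks and at most
`Q ≤ ρ n² / log n` functions of `𝓗` are opened (`Simple`). Nodes whose leaves all lie in a set of
blocks with at most `v ≤ ρ n` unopened ones (`InBlocks`) are not restricted.
-/

set_option autoImplicit false

namespace Pool.Agent.Results.MP_979eef_lc.SimpleMessages

open MP979

theorem result :
    (∀ δ ε : ℝ, 0 < δ → 0 < ε → ∃ (ρ : ℝ) (n₀ : ℕ), 0 < ρ ∧ ∀ n ≥ n₀,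
      (∀ 𝓗 : Finset ((Fin n × Fin n → Bool) → Bool),
        (𝓗.card : ℝ) ≤ 2 ^ ((2 : ℝ) ^ ((1 - δ) * n)) →
        ∃ g : (Fin n → Bool) → Bool, NonConst g ∧
        (∀ (f : (Fin n → Bool) → Bool) (P : Prot (Fin n × Fin n)) (k T Q v : ℕ),
          P.Solves (comp f g) → (Q : ℝ) * Real.log n ≤ ρ * n ^ 2 → (v : ℝ) ≤ ρ * n →
          Simple g 𝓗 T Q v k ∅ [] P →
          (∀ φ : Fml (Fin n), (∀ a, φ.eval a = f a) → (2 : ℝ) ^ (k + T + ε * n) ≤ φ.size) →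
          k + (1 - ε) * n ≤ P.depth) ∧
        ∀ (f : (Fin n → Bool) → Bool) (P : Prot (Fin n × Fin n)) (T Q v : ℕ) (c : ℝ),
          NonConst f → P.Solves (comp f g) → (Q : ℝ) * Real.log n ≤ ρ * n ^ 2 →
          (v : ℝ) ≤ ρ * n → Simple g 𝓗 T Q v P.depth ∅ [] P →
          (∀ φ : Fml (Fin n), (∀ a, φ.eval a = f a) → c ≤ φ.size) →
          c * 2 ^ ((1 - ε) * n) ≤ 2 ^ T * P.leaves) ∧
      ∃ f : (Fin n → Bool) → Bool, NonConst f ∧
        ∀ φ : Fml (Fin n), (∀ a, φ.eval a = f a) → (2 : ℝ) ^ ((1 - ε) * n) ≤ φ.size) ∧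
    (∀ δ : ℝ, 0 < δ → ∃ n₀ : ℕ, ∀ n ≥ n₀, ∃ 𝓗 : Finset ((Fin n × Fin n → Bool) → Bool),
      (𝓗.card : ℝ) ≤ 2 ^ ((2 : ℝ) ^ ((1 - δ) * n)) ∧
      ∀ φ : Fml (Fin n × Fin n), (φ.size : ℝ) ≤ 2 ^ ((1 - 2 * δ) * n) → φ.eval ∈ 𝓗) ∧
    (∀ (n : ℕ) (f g : (Fin n → Bool) → Bool) (φ ψ : Fml (Fin n)), (∀ a, φ.eval a = f a) →
      (∀ x, ψ.eval x = g x) → ∃ P : Prot (Fin n × Fin n), P.Solves (comp f g) ∧
        P.depth ≤ φ.depth + ψ.depth ∧ P.leaves ≤ φ.size * ψ.size ∧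
        ∀ k, Simple g ∅ 0 0 1 k ∅ [] P) ∧
    ∀ (ι : Type) (h : (ι → Bool) → Bool), (∃ x, h x = true) → (∃ x, h x = false) →
      (∀ d, (∃ P : Prot ι, P.Solves h ∧ P.depth ≤ d) ↔
        ∃ φ : Fml ι, (∀ x, φ.eval x = h x) ∧ φ.depth ≤ d) ∧
      ∀ s, (∃ P : Prot ι, P.Solves h ∧ P.leaves ≤ s) ↔
        ∃ φ : Fml ι, (∀ x, φ.eval x = h x) ∧ φ.size ≤ s := by
  refine ⟨fun δ ε hδ hε => fin3 δ ε hδ hε, fun δ hδ => fam_small δ hδ, ?_, fun ι h h1 h0 =>
    ⟨fun d => kw_iff h h1 h0 d, fun s => kw_size h h1 h0 s⟩⟩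
  intro n f g φ ψ hφ hψ
  obtain ⟨P, h1, h2, h3, h4⟩ := upp_main g ψ hψ φ {x | comp f g x = true} {y | comp f g y = false}
    (fun x hx => by rw [hφ]; exact hx) (fun y hy => by rw [hφ]; exact hy)
  exact ⟨P, h3, h1, h2, h4⟩

end Pool.Agent.Results.MP_979eef_lc.SimpleMessages
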